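import Pool.Agent.J4H12.PZ.Stm

/-!
# Project PZ (helper12): `S_HH` (helper68)
-/

set_option autoImplicit false

open MeasureTheory Set Filter Topology Metric

namespace Pool.Agent.J4H68.PZ

theorem hh_one {Z F a b t β D c₀ : ℝ} (hZ : 0 < Z) (hD : 0 < D) (hc : 0 < c₀) (hF : c₀ ≤ F)
    (ht : 0 < t) (ht1 : t ≤ 1) (htc : t ≤ c₀ / (4 * D)) (hβ : |β| ≤ D)
    (ha : |a - F - β * t| ≤ D * t ^ 2) (hb : |b - F - β * (-t)| ≤ D * t ^ 2) :
    |Z / a + Z / b - 2 * (Z / F)| ≤ Z * (8 * D / c₀ ^ 2 + 32 * D ^ 2 / c₀ ^ 3) * t ^ 2 := by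
  obtain ⟨x, hx⟩ : ∃ x, x = a - F := ⟨_, rfl⟩
  obtain ⟨y, hy⟩ : ∃ y, y = b - F := ⟨_, rfl⟩
  have hax : a = F + x := by rw [hx]; ring
  have hby : b = F + y := by rw [hy]; ring
  have htD : D * t ≤ c₀ / 4 := by
    have h1 := mul_le_mul_of_nonneg_left htc hD.le
    have h2 : D * (c₀ / (4 * D)) = c₀ / 4 := by field_simp
    linarith
  have htt : t ^ 2 ≤ t := by nlinarith
  have hDt : D * t ^ 2 ≤ D * t := mul_le_mul_of_nonneg_left htt hD.le
  have hβt : |β * t| ≤ D * t := by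
    rw [abs_mul, abs_of_pos ht]
    exact mul_le_mul_of_nonneg_right hβ ht.le
  rw [abs_le] at ha hb hβt
  have hx1 : |x| ≤ 2 * (D * t) := by
    rw [abs_le]
    constructor <;> linarith [ha.1, ha.2, hβt.1, hβt.2]
  have hy1 : |y| ≤ 2 * (D * t) := by
    rw [abs_le]
    constructor <;> linarith [hb.1, hb.2, hβt.1, hβt.2]
  have hxy : |x + y| ≤ 2 * (D * t ^ 2) := by
    rw [abs_le]
    constructor <;> linarith [ha.1, ha.2, hb.1, hb.2]
  have hxa := abs_le.1 hx1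
  have hya := abs_le.1 hy1
  have ha0 : c₀ / 2 ≤ a := by linarith [hxa.1]
  have hb0 : c₀ / 2 ≤ b := by linarith [hya.1]
  have hapos : 0 < a := by linarith
  have hbpos : 0 < b := by linarith
  have hFpos : 0 < F := by linarith
  have key : Z / a + Z / b - 2 * (Z / F) = Z * ((-F * (x + y) - 2 * (x * y)) / (a * b * F)) := by
    have hane := hapos.ne'
    have hbne := hbpos.ne'
    have hFne := hFpos.ne'
    rw [hx, hy]
    field_simp
    ring
  have hnum : |-F * (x + y) - 2 * (x * y)| ≤ F * (2 * (D * t ^ 2)) + 8 * D ^ 2 * t ^ 2 := by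
    have h1 : |-F * (x + y) - 2 * (x * y)| ≤ |-F * (x + y)| + |2 * (x * y)| := abs_sub _ _
    have h2 : |-F * (x + y)| ≤ F * (2 * (D * t ^ 2)) := by
      rw [abs_mul, abs_neg, abs_of_pos hFpos]
      exact mul_le_mul_of_nonneg_left hxy hFpos.le
    have h3 : |2 * (x * y)| ≤ 8 * D ^ 2 * t ^ 2 := by
      rw [abs_mul, abs_mul, abs_of_pos (by norm_num : (0 : ℝ) < 2)]
      have h4 : |x| * |y| ≤ (2 * (D * t)) * (2 * (D * t)) :=
        mul_le_mul hx1 hy1 (abs_nonneg _) (by positivity)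
      nlinarith
    linarith
  rw [key, abs_mul, abs_of_pos hZ, mul_assoc Z (8 * D / c₀ ^ 2 + 32 * D ^ 2 / c₀ ^ 3) (t ^ 2)]
  refine mul_le_mul_of_nonneg_left ?_ hZ.le
  have hden : 0 < a * b * F := by positivity
  rw [abs_div, abs_of_pos hden]
  refine (div_le_div_of_nonneg_right hnum hden.le).trans ?_
  have hab : c₀ ^ 2 / 4 ≤ a * b := by nlinarith
  have habF : c₀ ^ 3 / 4 ≤ a * b * F := by
    have h1 : c₀ ^ 2 / 4 * c₀ ≤ a * b * F := mul_le_mul hab hF hc.le (by positivity)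
    nlinarith
  have e1 : (F * (2 * (D * t ^ 2)) + 8 * D ^ 2 * t ^ 2) / (a * b * F) =
      2 * (D * t ^ 2) / (a * b) + 8 * D ^ 2 * t ^ 2 / (a * b * F) := by
    have hane := hapos.ne'
    have hbne := hbpos.ne'
    have hFne := hFpos.ne'
    field_simp
  have e2 : (8 * D / c₀ ^ 2 + 32 * D ^ 2 / c₀ ^ 3) * t ^ 2 =
      2 * (D * t ^ 2) / (c₀ ^ 2 / 4) + 8 * D ^ 2 * t ^ 2 / (c₀ ^ 3 / 4) := by
    have hc' := hc.ne'
    field_simp
    ring
  rw [e1, e2]
  exact add_le_add (div_le_div_of_nonneg_left (by positivity) (by positivity) hab)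
    (div_le_div_of_nonneg_left (by positivity) (by positivity) habF)

theorem hh_two {φ : ℝ → ℝ} {Z F β β' γ j C' δ' : ℝ} (hF : 0 < F) (hφ0 : ∀ t, 0 < φ t)
    (h1 : Tendsto (fun t : ℝ => t⁻¹ ^ 2 * (φ t - F - β * t)) (𝓝[>] 0) (𝓝 (γ - j)))
    (h2 : Tendsto (fun t : ℝ => t⁻¹ ^ 2 * (φ t - F - β * t)) (𝓝[<] 0) (𝓝 (γ + j)))
    (hδ' : 0 < δ') (hC' : ∀ t : ℝ, 0 < t → t ≤ δ' →
      |β' * t - (Z / φ t - Z / φ (-t)) / 2| ≤ C' * t ^ 2) :
    Tendsto (fun t : ℝ => t⁻¹ ^ 2 * (β' * t - (Z / φ t - Z / φ (-t)) / 2)) (𝓝[>] 0)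
      (𝓝 (-(Z * j / F ^ 2))) := by
  set u : ℝ → ℝ := fun t => t⁻¹ ^ 2 * (φ t - F - β * t) with hu
  set v : ℝ → ℝ := fun t => t⁻¹ ^ 2 * (φ (-t) - F + β * t) with hv
  have hneg : Tendsto (fun t : ℝ => -t) (𝓝[>] 0) (𝓝[<] 0) := by
    have := tendsto_neg_nhdsGT (a := (0 : ℝ))
    simpa using this
  have h3 : Tendsto v (𝓝[>] 0) (𝓝 (γ + j)) := by
    have h4 := h2.comp hneg
    refine h4.congr fun t => ?_
    simp only [hv, hu, Function.comp]
    rw [inv_neg, neg_pow_two (t⁻¹)]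
    ring
  have ht0 : Tendsto (fun t : ℝ => t) (𝓝[>] 0) (𝓝 0) := tendsto_id.mono_left nhdsWithin_le_nhds
  set a : ℝ → ℝ := fun t => F + β * t + u t * t ^ 2 with ha
  set b : ℝ → ℝ := fun t => F - β * t + v t * t ^ 2 with hb
  have ha' : ∀ t, t ≠ 0 → a t = φ t := by
    intro t ht
    simp only [ha, hu]
    field_simp
    ring
  have hb' : ∀ t, t ≠ 0 → b t = φ (-t) := by
    intro t ht
    simp only [hb, hv]
    field_simp
    ring
  have hat : Tendsto a (𝓝[>] 0) (𝓝 F) := by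
    have := ((tendsto_const_nhds (x := F)).add (ht0.const_mul β)).add (h1.mul (ht0.pow 2))
    simpa using this
  have hbt : Tendsto b (𝓝[>] 0) (𝓝 F) := by
    have := (tendsto_const_nhds (x := F).sub (ht0.const_mul β)).add (h3.mul (ht0.pow 2))
    simpa using this
  set w : ℝ → ℝ := fun t => Z * β * (-((F * (u t + v t) - β ^ 2) * t + β * (v t - u t) * t ^ 2 +
    u t * v t * t ^ 3)) / (a t * b t * F ^ 2) - Z * (v t - u t) / (2 * (a t * b t)) with hw
  have hwt : Tendsto w (𝓝[>] 0) (𝓝 (-(Z * j / F ^ 2))) := by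
    have hab := hat.mul hbt
    have hnum := (((((h1.add h3).const_mul F).sub_const (β ^ 2)).mul ht0).add
      (((h3.sub h1).const_mul β).mul (ht0.pow 2))).add ((h1.mul h3).mul (ht0.pow 3))
    have t1 := ((hnum.neg).const_mul (Z * β)).div (hab.mul_const (F ^ 2)) (by positivity)
    have t2 := ((h3.sub h1).const_mul Z).div (hab.const_mul 2) (by positivity)
    have t3 := t1.sub t2
    refine (t3.congr fun t => ?_).trans (le_of_eq ?_)
    · rfl
    · congr 1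
      have := hF.ne'
      field_simp
      ring
  have hmain : ∀ t : ℝ, 0 < t → t⁻¹ ^ 2 * (β' * t - (Z / φ t - Z / φ (-t)) / 2) =
      (β' + Z * β / F ^ 2) * t⁻¹ + w t := by
    intro t ht
    have hne := ht.ne'
    have hane : a t ≠ 0 := by rw [ha' t hne]; exact (hφ0 t).ne'
    have hbne : b t ≠ 0 := by rw [hb' t hne]; exact (hφ0 _).ne'
    have hFne := hF.ne'
    rw [← ha' t hne, ← hb' t hne]
    have e3 : Z / a t - Z / b t = Z * (-2 * β * t + (v t - u t) * t ^ 2) / (a t * b t) := by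
      rw [div_sub_div _ _ hane hbne]
      congr 1
      simp only [ha, hb]
      ring
    have e4 : F ^ 2 - a t * b t = -((F * (u t + v t) - β ^ 2) * t ^ 2 + β * (v t - u t) * t ^ 3 +
        u t * v t * t ^ 4) := by
      simp only [ha, hb]
      ring
    have e5 : w t = Z * β * ((F ^ 2 - a t * b t) * t⁻¹) / (a t * b t * F ^ 2) -
        Z * (v t - u t) / (2 * (a t * b t)) := by
      rw [e4]
      simp only [hw]
      congr 2
      field_simp
    rw [e3, e5]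
    field_simp
    ring
  have hK : β' + Z * β / F ^ 2 = 0 := by
    by_contra hK
    -- `K t⁻¹` is bounded, so `K = K t⁻¹ t` tends to zero
    have hbd : ∀ᶠ t in 𝓝[>] (0 : ℝ), |(β' + Z * β / F ^ 2) * t⁻¹| ≤ C' + (|(-(Z * j / F ^ 2))| + 1) := by
      have hw1 : ∀ᶠ t in 𝓝[>] (0 : ℝ), |w t| < |(-(Z * j / F ^ 2))| + 1 :=
        (hwt.abs).eventually_lt_const (lt_add_one _)
      have hlt : ∀ᶠ t in 𝓝[>] (0 : ℝ), t ≤ δ' := by
        filter_upwards [Ioc_mem_nhdsGT hδ'] with t ht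
        exact ht.2
      filter_upwards [hw1, hlt, self_mem_nhdsWithin] with t h4 h5 ht
      have htpos : 0 < t := ht
      have h6 := hmain t htpos
      have h7 : (β' + Z * β / F ^ 2) * t⁻¹ =
          t⁻¹ ^ 2 * (β' * t - (Z / φ t - Z / φ (-t)) / 2) - w t := by rw [h6]; ring
      rw [h7]
      refine (abs_sub _ _).trans (add_le_add ?_ h4.le)
      rw [abs_mul, abs_of_pos (by positivity)]
      have h8 := mul_le_mul_of_nonneg_left (hC' t htpos h5) (by positivity : (0 : ℝ) ≤ t⁻¹ ^ 2)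
      refine h8.trans (le_of_eq ?_)
      field_simp
    have h9 : Tendsto (fun t : ℝ => (β' + Z * β / F ^ 2) * t⁻¹ * t) (𝓝[>] 0) (𝓝 0) := by
      refine squeeze_zero_norm' (a := fun t => (C' + (|(-(Z * j / F ^ 2))| + 1)) * t) ?_ ?_
      · filter_upwards [hbd, self_mem_nhdsWithin] with t h4 ht
        rw [norm_mul, Real.norm_eq_abs, Real.norm_eq_abs, abs_of_pos (show 0 < t from ht)]
        exact mul_le_mul_of_nonneg_right h4 (le_of_lt ht)
      · have := ht0.const_mul (C' + (|(-(Z * j / F ^ 2))| + 1))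
        rwa [mul_zero] at this
    have h6 : Tendsto (fun t : ℝ => (β' + Z * β / F ^ 2) * t⁻¹ * t) (𝓝[>] 0)
        (𝓝 (β' + Z * β / F ^ 2)) := by
      refine tendsto_const_nhds.congr' ?_
      filter_upwards [self_mem_nhdsWithin] with t ht
      have : t ≠ 0 := (ne_of_gt ht)
      field_simp
    exact hK (tendsto_nhds_unique h6 h9)
  refine hwt.congr' ?_
  filter_upwards [self_mem_nhdsWithin] with t ht
  rw [hmain t ht, hK, zero_mul, zero_add]

theorem t_HH : Pool.Agent.J4H12.PZ.S_HH := by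
  intro f Z J hZ hf hb hexp hunif
  refine ⟨?_, ?_⟩
  · intro T hT h0 h1
    obtain ⟨C, δ₀, hδ, hC⟩ := hunif T hT h0 h1
    obtain ⟨R, hR⟩ := hT.isBounded.exists_norm_le
    obtain ⟨c₀, C₁, hc₀, hcb⟩ := hb R
    have hD : 0 < |C| + 1 := by positivity
    refine ⟨Z * (8 * (|C| + 1) / c₀ ^ 2 + 32 * (|C| + 1) ^ 2 / c₀ ^ 3),
      min δ₀ (min 1 (c₀ / (4 * (|C| + 1)))), by positivity, ?_⟩
    intro p hp t ht ht'
    have h2 : t ≤ δ₀ := ht'.trans (min_le_left _ _)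
    have h3 : t ≤ 1 := ht'.trans ((min_le_right _ _).trans (min_le_left _ _))
    have h4 : t ≤ c₀ / (4 * (|C| + 1)) := ht'.trans ((min_le_right _ _).trans (min_le_right _ _))
    obtain ⟨β, hβ, hβ'⟩ := hC p hp
    have hCD : C ≤ |C| + 1 := (le_abs_self C).trans (by linarith)
    have h5 := hβ' t (by rw [abs_of_pos ht]; exact h2)
    have h6 := hβ' (-t) (by rw [abs_neg, abs_of_pos ht]; exact h2)
    have h7 : C * t ^ 2 ≤ (|C| + 1) * t ^ 2 := mul_le_mul_of_nonneg_right hCD (by positivity)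
    rw [neg_pow_two t] at h6
    have hpR := hcb p (hR p hp)
    exact hh_one hZ hD hc₀ hpR.1 ht h3 h4 (hβ.trans hCD) (h5.trans h7) (h6.trans h7)
  · intro p hp0 hp1 β' C' δ' hδ' hC'
    obtain ⟨β, γ, h1, h2⟩ := hexp p hp0 hp1
    have h3 := hh_two (Z := Z) (hf p 0) (hf p) h1 h2 hδ' hC'
    have e : -(Z * (J / (4 * p * (1 + p))) / f p 0 ^ 2) =
        -(Z * J / (4 * p * (1 + p) * f p 0 ^ 2)) := by
      rw [mul_div_assoc', div_div]
    rw [e] at h3
    exact h3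

end Pool.Agent.J4H68.PZ
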