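import Pool.Agent.J4H12.PZ.Stm

/-!
# Project PZ (helper12): `S_NEAR` (helper68)
-/

set_option autoImplicit false

open MeasureTheory Set Filter Topology Metric
open scoped Pointwise RealInnerProductSpace ENNReal

namespace Pool.Agent.J4H68.PZ

open Pool.Agent.H638.IB Pool.Agent.J4H12.PZ

theorem Nf_hom {n k : ℕ} (a : Fin k → E n) {m : ℕ} (hm : 1 ≤ m) (δ c : ℝ) (x : E n) :
    Nf a m δ (c • x) = c ^ 2 * Nf a m δ x := by
  unfold Nf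
  have h1 : ∑ i, ⟪a i, c • x⟫ ^ (2 * m) = (c ^ 2) ^ m * ∑ i, ⟪a i, x⟫ ^ (2 * m) := by
    rw [Finset.mul_sum]
    refine Finset.sum_congr rfl fun i _ => ?_
    rw [inner_smul_right, mul_pow, pow_mul]
  have h2 : 0 ≤ ∑ i, ⟪a i, x⟫ ^ (2 * m) := Finset.sum_nonneg fun i _ => by
    rw [pow_mul]
    positivity
  rw [h1, Real.mul_rpow (by positivity) h2, Real.pow_rpow_inv_natCast (by positivity) (by omega),
    norm_smul, mul_pow, Real.norm_eq_abs, sq_abs]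
  ring

theorem e0_eq (L : ℕ) : e0 L = EuclideanSpace.single (0 : Fin (L + 3)) (1 : ℝ) := by
  unfold e0
  ext i
  refine Fin.cases ?_ (fun j => ?_) i
  · simp [mk_zero_apply]
  · rw [mk_succ_apply]
    simp

theorem e0_inner (L : ℕ) (x : E (L + 3)) : |⟪e0 L, x⟫| ≤ ‖x‖ := by
  rw [e0_eq]
  refine (abs_real_inner_le_norm _ _).trans ?_
  rw [PiLp.norm_single]
  simp

theorem G_nonneg {L : ℕ} (x : E (L + 3)) : 0 ≤ G x := le_max_left _ _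

theorem G_le {L : ℕ} (x : E (L + 3)) : G x ≤ ‖x‖ ^ 2 := by
  have h : ∀ i j : Fin (L + 3), x i * x j ≤ ‖x‖ ^ 2 := by
    intro i j
    have h1 := PiLp.norm_apply_le x i
    have h2 := PiLp.norm_apply_le x j
    calc x i * x j ≤ |x i * x j| := le_abs_self _
      _ = ‖x i‖ * ‖x j‖ := by rw [abs_mul]; rfl
      _ ≤ ‖x‖ * ‖x‖ := mul_le_mul h1 h2 (norm_nonneg _) (norm_nonneg _)
      _ = ‖x‖ ^ 2 := by ring
  exact max_le (by positivity) (max_le (h _ _) (h _ _))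

theorem Nf_cons {L k : ℕ} (a : Fin k → E (L + 3)) {m : ℕ} (hm : 1 ≤ m) (δ τ : ℝ) (x : E (L + 3)) :
    Nf a m δ x ≤ Nf (Fin.cons (τ • e0 L) a : Fin (k + 1) → _) m δ x ∧
    Nf (Fin.cons (τ • e0 L) a : Fin (k + 1) → _) m δ x ≤ Nf a m δ x + τ ^ 2 * ‖x‖ ^ 2 := by
  unfold Nf
  rw [Fin.sum_univ_succ]
  simp only [Fin.cons_zero, Fin.cons_succ]
  have h2 : 0 ≤ ∑ i, ⟪a i, x⟫ ^ (2 * m) := Finset.sum_nonneg fun i _ => by
    rw [pow_mul]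
    positivity
  have h3 : 0 ≤ ⟪τ • e0 L, x⟫ ^ (2 * m) := by
    rw [pow_mul]
    positivity
  have hm' : (0 : ℝ) < m := by exact_mod_cast hm
  have hm1 : (1 : ℝ) ≤ m := by exact_mod_cast hm
  constructor
  · have h4 : (∑ i, ⟪a i, x⟫ ^ (2 * m)) ^ ((m : ℝ)⁻¹) ≤
        (⟪τ • e0 L, x⟫ ^ (2 * m) + ∑ i, ⟪a i, x⟫ ^ (2 * m)) ^ ((m : ℝ)⁻¹) :=
      Real.rpow_le_rpow h2 (by linarith) (by positivity)
    linarith
  · have h4 : (⟪τ • e0 L, x⟫ ^ (2 * m) + ∑ i, ⟪a i, x⟫ ^ (2 * m)) ^ ((m : ℝ)⁻¹) ≤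
        (⟪τ • e0 L, x⟫ ^ (2 * m)) ^ ((m : ℝ)⁻¹) + (∑ i, ⟪a i, x⟫ ^ (2 * m)) ^ ((m : ℝ)⁻¹) :=
      Real.rpow_add_le_add_rpow h3 h2 (by positivity) (inv_le_one_of_one_le₀ hm1)
    have h5 : (⟪τ • e0 L, x⟫ ^ (2 * m)) ^ ((m : ℝ)⁻¹) ≤ τ ^ 2 * ‖x‖ ^ 2 := by
      rw [pow_mul, Real.pow_rpow_inv_natCast (by positivity) (by omega), real_inner_smul_left,
        mul_pow]
      have h6 : ⟪e0 L, x⟫ ^ 2 ≤ ‖x‖ ^ 2 := by
        rw [← sq_abs ⟪e0 L, x⟫]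
        exact pow_le_pow_left₀ (abs_nonneg _) (e0_inner L x) 2
      exact mul_le_mul_of_nonneg_left h6 (by positivity)
    linarith

theorem Nf_lower {n k : ℕ} (a : Fin k → E n) (m : ℕ) (δ : ℝ) (x : E n) :
    δ * ‖x‖ ^ 2 ≤ Nf a m δ x := by
  unfold Nf
  have h2 : 0 ≤ ∑ i, ⟪a i, x⟫ ^ (2 * m) := Finset.sum_nonneg fun i _ => by
    rw [pow_mul]
    positivity
  have := Real.rpow_nonneg h2 ((m : ℝ)⁻¹)
  linarith

theorem t_NEAR : S_NEAR := by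
  intro L k a m δ hm hδ _ ε hε hε1
  refine ⟨min 1 (ε * δ / 2), by positivity, ?_, ?_⟩
  · refine (min_le_right _ _).trans ?_
    nlinarith
  · intro τ κ hτ hτη hκ hκη
    have hτ1 : τ ≤ 1 := hτη.trans (min_le_left _ _)
    have hτ2 : τ ≤ ε * δ / 2 := hτη.trans (min_le_right _ _)
    have hκ2 : κ ≤ ε * δ / 2 := hκη.trans (min_le_right _ _)
    constructor
    · rintro x ⟨y, hy, rfl⟩
      have hy' : Nf a m δ y ≤ 1 := hy
      change Nf (Fin.cons (τ • e0 L) a : Fin (k + 1) → _) m δ ((1 - ε) • y) +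
        κ * G ((1 - ε) • y) ≤ 1
      have h1 := (Nf_cons a hm δ τ ((1 - ε) • y)).2
      have h2 := Nf_hom a hm δ (1 - ε) y
      have h3 := G_le ((1 - ε) • y)
      have h4 := Nf_lower a m δ y
      have h5 : ‖(1 - ε) • y‖ ^ 2 = (1 - ε) ^ 2 * ‖y‖ ^ 2 := by
        rw [norm_smul, mul_pow, Real.norm_eq_abs, sq_abs]
      rw [h5] at h1 h3
      have h6 : κ * G ((1 - ε) • y) ≤ κ * ((1 - ε) ^ 2 * ‖y‖ ^ 2) :=
        mul_le_mul_of_nonneg_left h3 hκ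
      have h7 : τ ^ 2 + κ ≤ ε * δ := by nlinarith
      have h8 : (τ ^ 2 + κ) * ‖y‖ ^ 2 ≤ ε := by
        have : (τ ^ 2 + κ) * ‖y‖ ^ 2 ≤ ε * δ * ‖y‖ ^ 2 := mul_le_mul_of_nonneg_right h7 (by positivity)
        have h9 : δ * ‖y‖ ^ 2 ≤ 1 := h4.trans hy'
        nlinarith
      have h10 : (1 - ε) ^ 2 * Nf a m δ y ≤ (1 - ε) ^ 2 * 1 :=
        mul_le_mul_of_nonneg_left hy' (by positivity)
      have h11 : (1 - ε) ^ 2 * ((τ ^ 2 + κ) * ‖y‖ ^ 2) ≤ (1 - ε) ^ 2 * ε :=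
        mul_le_mul_of_nonneg_left h8 (by positivity)
      have h12 : (1 - ε) ^ 2 * (1 + ε) ≤ 1 := by
        have h13 : 0 ≤ ε ^ 2 * (1 - ε) := mul_nonneg (by positivity) (by linarith)
        have h14 : (1 - ε) ^ 2 * (1 + ε) = 1 - ε - ε ^ 2 * (1 - ε) := by ring
        linarith
      nlinarith
    · intro x hx
      have hx' : Nf (Fin.cons (τ • e0 L) a : Fin (k + 1) → _) m δ x + κ * G x ≤ 1 := hx
      have h1 := (Nf_cons a hm δ τ x).1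
      have h2 : 0 ≤ κ * G x := mul_nonneg hκ (G_nonneg x)
      refine ⟨(1 + ε)⁻¹ • x, ?_, ?_⟩
      · change Nf a m δ ((1 + ε)⁻¹ • x) ≤ 1
        rw [Nf_hom a hm]
        have h3 : Nf a m δ x ≤ 1 := by linarith
        have h4 : (1 + ε)⁻¹ ^ 2 ≤ 1 := by
          apply pow_le_one₀ (by positivity)
          exact inv_le_one_of_one_le₀ (by linarith)
        have h5 := Nf_lower a m δ x
        have h6 : 0 ≤ Nf a m δ x := le_trans (by positivity) h5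
        calc (1 + ε)⁻¹ ^ 2 * Nf a m δ x ≤ 1 * 1 := mul_le_mul h4 h3 h6 zero_le_one
          _ = 1 := one_mul 1
      · change (1 + ε) • ((1 + ε)⁻¹ • x) = x
        rw [smul_smul, mul_inv_cancel₀ (by positivity), one_smul]

end Pool.Agent.J4H68.PZ
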